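import Mathlib
import Pool.Agent.Helper932.FHCMain

set_option autoImplicit false

open Filter Topology

namespace Pool.Agent.Results.MP_6cc614_an.DirectSum

/-- The lower density `liminf_{N → ∞} #{n ≤ N : n ∈ A} / N` of a set of natural numbers. -/
noncomputable def lowerDensity (A : Set ℕ) : ℝ :=
  liminf (fun N : ℕ => ((A ∩ Set.Iic N).ncard : ℝ) / (N : ℝ)) atTop

/-- `x` is a frequently hypercyclic vector for `T`: for every nonempty open set `U` the set
`{n ≥ 0 : T^n x ∈ U}` has positive lower density. -/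
def IsFHCVector {𝕜 : Type} [RCLike 𝕜] {X : Type} [AddCommGroup X] [Module 𝕜 X]
    [TopologicalSpace X] (T : X →L[𝕜] X) (x : X) : Prop :=
  ∀ U : Set X, IsOpen U → U.Nonempty → 0 < lowerDensity {n : ℕ | (T ^ n) x ∈ U}

/-- `T` is frequently hypercyclic. -/
def IsFHC {𝕜 : Type} [RCLike 𝕜] {X : Type} [AddCommGroup X] [Module 𝕜 X]
    [TopologicalSpace X] (T : X →L[𝕜] X) : Prop := ∃ x : X, IsFHCVector T x

/-- **Answer (negative) to the question of Bayart and Grivaux**, for real and for complex scalars:
there is a separable infinite-dimensional F-space `X` (a Hausdorff topological vector space which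
is metrizable and complete for its canonical uniform structure) and a frequently hypercyclic
continuous linear operator `T` on `X` such that `T ⊕ T` is not frequently hypercyclic on `X × X`. -/
theorem result : ∀ (𝕜 : Type) [RCLike 𝕜],
    ∃ (X : Type) (_ : AddCommGroup X) (_ : Module 𝕜 X) (_ : UniformSpace X)
      (_ : IsUniformAddGroup X) (_ : ContinuousSMul 𝕜 X) (T : X →L[𝕜] X),
      CompleteSpace X ∧ TopologicalSpace.MetrizableSpace X ∧
      TopologicalSpace.SeparableSpace X ∧ ¬ FiniteDimensional 𝕜 X ∧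
      IsFHC T ∧ ¬ IsFHC (T.prodMap T) := by
  intro 𝕜 _
  obtain ⟨X, i1, i2, i3, i4, i5, i6, i7, i8, T, h1, h2, h3⟩ :=
    Pool.Agent.Helper932.FHC.main 𝕜
  exact ⟨X, i1, i2, i3, i4, i5, T, i6, i7, i8, h1, h2, h3⟩

end Pool.Agent.Results.MP_6cc614_an.DirectSum
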